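import Pool.Agent.H81.SQ.Targets

/-!
# Module FRS: a subspace on whose cosets the labels are Fourier regular
-/

set_option autoImplicit false

namespace Pool.Agent.H13.SQ

open Finset Pool.Agent.H81.SQ
open scoped BigOperators

variable {G : Type} [AddCommGroup G] [Module (ZMod 2) G] [Fintype G] {K : ℕ}

lemma dens_nonneg (H : Submodule (ZMod 2) G) (lam : G → Fin K) (x : G) (l : Fin K) :
    0 ≤ dens H lam x l := by
  unfold H81.SQ.dens
  apply Finset.expect_nonneg
  intro i _
  split_ifs <;> norm_num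

lemma sum_dens (H : Submodule (ZMod 2) G) (lam : G → Fin K) (x : G) :
    ∑ l, dens H lam x l = 1 := by
  unfold H81.SQ.dens
  rw [← Finset.expect_sum_comm]
  have : ∀ h : H, ∑ l : Fin K, (if lam (x + h) = l then (1 : ℝ) else 0) = 1 := by
    intro h
    rw [Finset.sum_ite_eq]
    simp
  simp only [this]
  exact Finset.expect_const Finset.univ_nonempty 1

lemma energy_le (H : Submodule (ZMod 2) G) (lam : G → Fin K) :
    ∑ l : Fin K, 𝔼 x : G, (dens H lam x l) ^ 2 ≤ 1 := by
  rw [← Finset.expect_sum_comm]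
  have h1 : ∀ x : G, ∑ l : Fin K, (dens H lam x l) ^ 2 ≤ 1 := by
    intro x
    have h2 : ∀ l ∈ (Finset.univ : Finset (Fin K)), (dens H lam x l) ^ 2 ≤ dens H lam x l := by
      intro l _
      have h3 := dens_nonneg H lam x l
      have h4 : dens H lam x l ≤ 1 := by
        rw [← sum_dens H lam x]
        exact Finset.single_le_sum (fun i _ => dens_nonneg H lam x i) (Finset.mem_univ l)
      nlinarith
    exact (Finset.sum_le_sum h2).trans (sum_dens H lam x).le
  refine (Finset.expect_le_expect (fun x _ => h1 x)).trans ?_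
  exact (Finset.expect_const Finset.univ_nonempty (1 : ℝ)).le

lemma energy_nonneg (H : Submodule (ZMod 2) G) (lam : G → Fin K) :
    0 ≤ ∑ l : Fin K, 𝔼 x : G, (dens H lam x l) ^ 2 :=
  Finset.sum_nonneg fun _ _ => Finset.expect_nonneg fun _ _ => sq_nonneg _

lemma idx_nonneg (H : Submodule (ZMod 2) G) : 0 ≤ idx H := by
  unfold idx
  positivity

lemma idx_pow_le (H : Submodule (ZMod 2) G) {n : ℕ} (h : idx H ≤ n) :
    idx H * (2 : ℝ) ^ (idx H) ≤ ((n * 2 ^ n : ℕ) : ℝ) := by
  push_cast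
  apply mul_le_mul h _ (by positivity) (by positivity)
  rw [← Real.rpow_natCast]
  exact Real.rpow_le_rpow_of_exponent_le (by norm_num) h

lemma step (h : T_FRS1) (K : ℕ) (κ : ℝ) (hκ : 0 < κ) (j : ℕ) :
    ∀ n : ℕ, ∃ n' : ℕ, ∀ (G : Type) [AddCommGroup G] [Module (ZMod 2) G] [Fintype G]
      (lam : G → Fin K) (H : Submodule (ZMod 2) G), idx H ≤ n →
      1 - j * κ ^ 3 ≤ ∑ l : Fin K, 𝔼 x : G, (dens H lam x l) ^ 2 →
      ∃ H' : Submodule (ZMod 2) G, idx H' ≤ n' ∧
        (Nat.card {x₀ : G // ¬ Good H' lam κ x₀} : ℝ) ≤ κ * Fintype.card G := by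
  have hκ3 : 0 < κ ^ 3 := by positivity
  induction j with
  | zero =>
    intro n
    refine ⟨n, ?_⟩
    intro G _ _ _ lam H hn he
    refine ⟨H, hn, ?_⟩
    by_contra hcon
    obtain ⟨H', _, h2⟩ := h G K lam H κ hκ hcon
    have h3 := energy_le H' lam
    simp only [Nat.cast_zero, zero_mul, sub_zero] at he
    linarith
  | succ j ih =>
    intro n
    obtain ⟨n₁, hn₁⟩ := ih (n * 2 ^ n)
    refine ⟨max n n₁, ?_⟩
    intro G _ _ _ lam H hn he
    by_cases hcon : (Nat.card {x₀ : G // ¬ Good H lam κ x₀} : ℝ) ≤ κ * Fintype.card G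
    · refine ⟨H, hn.trans ?_, hcon⟩
      exact_mod_cast le_max_left n n₁
    · obtain ⟨H', h1, h2⟩ := h G K lam H κ hκ hcon
      have h3 := idx_pow_le H hn
      obtain ⟨H'', h4, h5⟩ := hn₁ G lam H' (h1.trans h3) (by
        push_cast at he
        linarith)
      refine ⟨H'', h4.trans ?_, h5⟩
      exact_mod_cast le_max_right n n₁

theorem frs (h : T_FRS1) : T_FRS := by
  intro K κ hκ
  have hκ3 : 0 < κ ^ 3 := by positivity
  obtain ⟨j, hj⟩ := exists_nat_ge (1 / κ ^ 3)
  obtain ⟨n₁, hn₁⟩ := step h K κ hκ j 1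
  refine ⟨n₁, ?_⟩
  intro G _ _ _ lam
  apply hn₁ G lam ⊤
  · unfold idx
    have : Fintype.card (⊤ : Submodule (ZMod 2) G) = Fintype.card G :=
      Fintype.card_congr (Equiv.subtypeUnivEquiv (fun _ => Submodule.mem_top))
    rw [this, div_self]
    · norm_num
    · exact_mod_cast Fintype.card_ne_zero
  · have h1 := energy_nonneg (⊤ : Submodule (ZMod 2) G) lam
    rw [div_le_iff₀ hκ3] at hj
    linarith

end Pool.Agent.H13.SQ
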