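import Pool.Agent.H81.SQ.Targets

/-!
# Module TCL: labels determining the diagonal values
-/

set_option autoImplicit false

namespace Pool.Agent.H13.SQ

open Pool.Agent.H81.SQ

theorem tcl : T_TCL := by
  intro G _ _ _ B
  classical
  let e := Fintype.equivFin (Fin B.K × (Fin B.k → ZMod 2))
  refine ⟨⟨Fintype.card (Fin B.K × (Fin B.k → ZMod 2)), B.k,
    fun x => e (B.lam x, fun i => B.M i x x), B.M⟩, ?_, ?_, rfl, ?_⟩
  · intro x y x' y' h
    simp only [Fac.code, Prod.mk.injEq, EmbeddingLike.apply_eq_iff_eq] at h ⊢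
    exact ⟨h.1.1, h.2.1.1, h.2.2.1.1, h.2.2.2⟩
  · intro x x' h i
    simp only [Prod.mk.injEq, EmbeddingLike.apply_eq_iff_eq] at h
    exact congrFun h.2 i
  · show Fintype.card (Fin B.K × (Fin B.k → ZMod 2)) ≤ B.K * 2 ^ B.k
    rw [Fintype.card_prod, Fintype.card_fin, Fintype.card_fun, ZMod.card, Fintype.card_fin]

end Pool.Agent.H13.SQ
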