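import Pool.Agent.H47.SQ.Targets3
import Pool.Agent.H4.SQ.NSS

/-!
The second moment with a sharp constant: board `ppz_modules`, row `XNS` (MP_c62aed_lc).
-/

set_option autoImplicit false

namespace Pool.Agent.H13.SR

open Finset
open Pool.Agent.H47.SQ (sav guess)
open Pool.Agent.H47.SR
open Pool.Agent.H97.RK (descFactorial_le)
open Pool.Agent.H4.SR (choose_le_exp exp_le_one_sub)

/-- the constants -/
theorem consts (ε : ℝ) (hε : 0 < ε) : ∃ K : ℕ, 6 ≤ K ∧ ∀ z : ℝ, (K : ℝ) ≤ z →
    z * Real.exp (-(√z / 2)) ≤ ε / 8 ∧ Real.log (2 * z) ≤ 9 / 100 * √z ∧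
    32 ≤ ε * Real.log z ∧ 1 ≤ Real.log z ∧ 3 + Real.log z ≤ ε / 2 * z := by
  have t1 : Filter.Tendsto (fun z : ℝ => √z / 2) Filter.atTop Filter.atTop :=
    Real.tendsto_sqrt_atTop.atTop_div_const (by norm_num)
  have t2 : Filter.Tendsto (fun z : ℝ => (√z / 2) ^ 2 * Real.exp (-(√z / 2))) Filter.atTop
      (nhds 0) := (Real.tendsto_pow_mul_exp_neg_atTop_nhds_zero 2).comp t1
  have e1 : ∀ᶠ z : ℝ in Filter.atTop, (√z / 2) ^ 2 * Real.exp (-(√z / 2)) < ε / 32 :=
    t2.eventually_lt_const (by positivity)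
  have e2 : ∀ᶠ z : ℝ in Filter.atTop, ‖Real.log z‖ ≤ 1 / 100 * ‖z ^ (1 / 2 : ℝ)‖ :=
    (isLittleO_log_rpow_atTop (by norm_num : (0 : ℝ) < 1 / 2)).bound (by norm_num)
  have e3 : ∀ᶠ z : ℝ in Filter.atTop, ‖Real.log z‖ ≤ ε / 4 * ‖z ^ (1 : ℝ)‖ :=
    (isLittleO_log_rpow_atTop (by norm_num : (0 : ℝ) < 1)).bound (by positivity)
  have e4 : ∀ᶠ z : ℝ in Filter.atTop, 32 / ε + 1 ≤ Real.log z :=
    Real.tendsto_log_atTop.eventually_ge_atTop _
  have e5 : ∀ᶠ z : ℝ in Filter.atTop, 12 / ε + 10000 ≤ z := Filter.eventually_ge_atTop _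
  obtain ⟨z₀, hz₀⟩ := Filter.eventually_atTop.1 (e1.and (e2.and (e3.and (e4.and e5))))
  refine ⟨max 6 ⌈z₀⌉₊, le_max_left _ _, ?_⟩
  intro z hz
  have hz1 : z₀ ≤ z := by
    refine (Nat.le_ceil z₀).trans (le_trans ?_ hz)
    exact_mod_cast le_max_right 6 ⌈z₀⌉₊
  obtain ⟨h1, h2, h3, h4, h5⟩ := hz₀ z hz1
  have hi : 0 < 12 / ε := by positivity
  have hi2 : 0 < 32 / ε := by positivity
  have hz0 : 0 < z := by linarith
  have hs : √z ^ 2 = z := Real.sq_sqrt hz0.le
  have hs0 : 0 ≤ √z := Real.sqrt_nonneg z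
  have hlog : 0 ≤ Real.log z := by linarith
  rw [Real.norm_of_nonneg hlog, Real.norm_of_nonneg (Real.rpow_nonneg hz0.le _),
    ← Real.sqrt_eq_rpow] at h2
  rw [Real.norm_of_nonneg hlog, Real.rpow_one, Real.norm_of_nonneg hz0.le] at h3
  refine ⟨?_, ?_, ?_, by linarith, ?_⟩
  · have e : (√z / 2) ^ 2 = z / 4 := by
      rw [div_pow, hs]
      norm_num
    rw [e] at h1
    linarith
  · rw [Real.log_mul (by norm_num) hz0.ne']
    have h6 : 100 ≤ √z := by
      apply Real.le_sqrt_of_sq_le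
      linarith
    have := Real.log_two_lt_d9
    linarith
  · have : ε * (32 / ε) = 32 := by field_simp
    nlinarith
  · have : ε * (12 / ε) = 12 := by field_simp
    nlinarith

/-- one term -/
theorem term_le {n k m w : ℕ} (hk : 1 ≤ k) (hkn : k ≤ n) (hw : w ≤ n) :
    (((2 : ℝ) ^ k - 2) * (n.descFactorial k : ℝ) + ((n - w).descFactorial k : ℝ)) ^ m ≤
      (((2 : ℝ) ^ k - 1) * (n.descFactorial k : ℝ)) ^ m *
        Real.exp (-((1 - Real.exp (-(k * w / n))) * (m / 2 ^ k))) := by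
  obtain ⟨N, hN⟩ : ∃ N : ℝ, N = (n.descFactorial k : ℝ) := ⟨_, rfl⟩
  obtain ⟨M, hM⟩ : ∃ M : ℝ, M = ((n - w).descFactorial k : ℝ) := ⟨_, rfl⟩
  obtain ⟨a, ha⟩ : ∃ a : ℝ, a = (2 : ℝ) ^ k := ⟨_, rfl⟩
  obtain ⟨c, hc⟩ : ∃ c : ℝ, c = Real.exp (-(k * w / n)) := ⟨_, rfl⟩
  have hN0 : 0 < N := by
    rw [hN]
    exact_mod_cast Nat.descFactorial_pos.2 hkn
  have hM0 : 0 ≤ M := by
    rw [hM]
    exact Nat.cast_nonneg _
  have ha2 : 2 ≤ a := by
    rw [ha]
    calc (2 : ℝ) = 2 ^ 1 := by norm_num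
      _ ≤ 2 ^ k := pow_le_pow_right₀ (by norm_num) hk
  have hnpos : (0 : ℝ) < n := by
    exact_mod_cast (lt_of_lt_of_le hk hkn : 0 < n)
  have hc0 : 0 ≤ c := by
    rw [hc]
    exact (Real.exp_pos _).le
  have hc1 : c ≤ 1 := by
    rw [hc, Real.exp_le_one_iff, neg_nonpos]
    positivity
  have hMc : M ≤ c * N := by
    have h1 : M * (n : ℝ) ^ k ≤ ((n - w : ℕ) : ℝ) ^ k * N := by
      rw [hM, hN]
      exact_mod_cast descFactorial_le (Nat.sub_le n w) k hkn
    have h2 : ((n - w : ℕ) : ℝ) ≤ Real.exp (-(w / n)) * n := by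
      rw [Nat.cast_sub hw]
      have h3 := Real.one_sub_le_exp_neg ((w : ℝ) / n)
      have h4 := mul_le_mul_of_nonneg_right h3 hnpos.le
      have h5 : (1 - (w : ℝ) / n) * n = n - w := by field_simp
      linarith
    have h3 : ((n - w : ℕ) : ℝ) ^ k ≤ (Real.exp (-(w / n)) * n) ^ k :=
      pow_le_pow_left₀ (Nat.cast_nonneg _) h2 k
    have h4 : Real.exp (-((w : ℝ) / n)) ^ k = c := by
      rw [hc, ← Real.exp_nat_mul]
      congr 1
      ring
    rw [mul_pow, h4] at h3
    have h5 : M * (n : ℝ) ^ k ≤ (c * N) * (n : ℝ) ^ k := by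
      calc M * (n : ℝ) ^ k ≤ ((n - w : ℕ) : ℝ) ^ k * N := h1
        _ ≤ (c * (n : ℝ) ^ k) * N := mul_le_mul_of_nonneg_right h3 hN0.le
        _ = (c * N) * (n : ℝ) ^ k := by ring
    exact le_of_mul_le_mul_right h5 (pow_pos hnpos k)
  rw [← hN, ← hM, ← ha, ← hc]
  have h0 : 0 ≤ (a - 2) * N + M := by nlinarith
  have h1 : (a - 2) * N + M ≤ ((a - 1) * N) * Real.exp (-((1 - c) / a)) := by
    have h2 : 1 - (1 - c) / a ≤ Real.exp (-((1 - c) / a)) := Real.one_sub_le_exp_neg _
    have h3 : a - 2 + c ≤ (a - 1) * (1 - (1 - c) / a) := by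
      have h4 : (a - 1) * (1 - (1 - c) / a) - (a - 2 + c) = (1 - c) / a := by
        field_simp
        ring
      have h5 : 0 ≤ (1 - c) / a := div_nonneg (by linarith) (by linarith)
      linarith
    calc (a - 2) * N + M ≤ (a - 2 + c) * N := by nlinarith
      _ ≤ ((a - 1) * (1 - (1 - c) / a)) * N := mul_le_mul_of_nonneg_right h3 hN0.le
      _ ≤ ((a - 1) * Real.exp (-((1 - c) / a))) * N :=
          mul_le_mul_of_nonneg_right (mul_le_mul_of_nonneg_left h2 (by linarith)) hN0.le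
      _ = ((a - 1) * N) * Real.exp (-((1 - c) / a)) := by ring
  have h2 := pow_le_pow_left₀ h0 h1 m
  rw [mul_pow, ← Real.exp_nat_mul] at h2
  refine h2.trans (le_of_eq ?_)
  congr 2
  ring

theorem sub_mul_log_le {s : ℝ} (h0 : 0 < s) : s - s * Real.log s ≤ 2 * √s := by
  have hq0 : 0 < √s := Real.sqrt_pos.2 h0
  have hq : √s ^ 2 = s := Real.sq_sqrt h0.le
  have hl : Real.log s = 2 * Real.log √s := by
    rw [Real.log_sqrt h0.le]
    ring
  have h2 : -Real.log √s ≤ (√s)⁻¹ - 1 := by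
    rw [← Real.log_inv]
    exact Real.log_le_sub_one_of_pos (by positivity)
  have h3 : √s ^ 2 * (-Real.log √s) ≤ √s ^ 2 * ((√s)⁻¹ - 1) :=
    mul_le_mul_of_nonneg_left h2 (by positivity)
  have h4 : √s ^ 2 * ((√s)⁻¹ - 1) = √s - √s ^ 2 := by
    field_simp
  rw [hl]
  nlinarith

theorem pf_XNS (hNS1 : Pool.Agent.H47.PL.T_NS1) : T_XNS := by
  intro ε hε
  obtain ⟨K, hK6, hK⟩ := consts ε hε
  refine ⟨1 / 16, K, by norm_num, ?_⟩
  intro k n m hk hkn hlo hhi
  have hk6 : 6 ≤ k := hK6.trans hk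
  have hkr6 : (6 : ℝ) ≤ k := by exact_mod_cast hk6
  have hk0 : (0 : ℝ) < k := by linarith
  have hkn' : k ≤ n := le_trans (Nat.le_mul_of_pos_left k (by omega)) hkn
  have hn1 : 6 ≤ n := hk6.trans hkn'
  have hn6 : (6 : ℝ) ≤ n := by exact_mod_cast hn1
  have hn0 : (0 : ℝ) < n := by linarith
  obtain ⟨c1, c2, c3, c4, -⟩ := hK k (by exact_mod_cast hk)
  obtain ⟨x, hx⟩ : ∃ x : ℝ, x = n / k := ⟨_, rfl⟩
  have hxk : x * k = n := by
    rw [hx]
    field_simp
  have hxK : (K : ℝ) ≤ x := by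
    rw [hx, le_div_iff₀ hk0]
    exact_mod_cast hkn
  obtain ⟨-, -, -, -, c5⟩ := hK x hxK
  have hK6r : (6 : ℝ) ≤ K := by exact_mod_cast hK6
  have hx1 : (1 : ℝ) ≤ x := by linarith
  obtain ⟨Δ, hΔ⟩ : ∃ Δ : ℝ, Δ = m / (2 ^ k * n) := ⟨_, rfl⟩
  have h2k0 : (0 : ℝ) < 2 ^ k := by positivity
  have hΔ0 : 0 ≤ Δ := by
    rw [hΔ]
    positivity
  have hΔn : (m : ℝ) / 2 ^ k = Δ * n := by
    rw [hΔ]
    field_simp
  have hΔlo : (k : ℝ) ^ (-(1 / 16) : ℝ) ≤ Δ := by
    rw [hΔ, le_div_iff₀ (by positivity), Real.rpow_neg hk0.le,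
      inv_mul_le_iff₀ (Real.rpow_pos_of_pos hk0 _)]
    exact hlo
  have hΔhi : Δ ≤ (2 : ℝ) ^ ((1 / 16 : ℝ) * k) := by
    rw [hΔ, div_le_iff₀ (by positivity)]
    refine hhi.trans (le_of_eq ?_)
    rw [add_mul, one_mul, Real.rpow_add (by norm_num), Real.rpow_natCast]
    ring
  obtain ⟨L, hL⟩ : ∃ L : ℝ, L = Real.log (k * (1 + Δ)) := ⟨_, rfl⟩
  obtain ⟨v, hv⟩ : ∃ v : ℝ, v = sav n k m := ⟨_, rfl⟩
  have hvL : v * k = L := by
    rw [hv, hL, hΔ]
    unfold sav
    field_simp
  have hlogk : Real.log k ≤ L := by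
    rw [hL]
    exact Real.log_le_log hk0 (le_mul_of_one_le_right hk0.le (by linarith))
  have hv0 : 0 < v := by
    by_contra hc
    have := mul_nonpos_of_nonpos_of_nonneg (not_lt.1 hc) hk0.le
    linarith
  have hsk0 : 0 < √(k : ℝ) := Real.sqrt_pos.2 hk0
  have hskk : √(k : ℝ) * √(k : ℝ) = k := Real.mul_self_sqrt hk0.le
  -- the size of the savings
  have hsv : 2 * √v ≤ 6 / 10 * Δ ∧ v ≤ 9 / 100 := by
    rcases le_or_gt Δ 1 with hΔ1 | hΔ1
    · have h1 : L ≤ 9 / 100 * √(k : ℝ) := by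
        refine le_trans ?_ c2
        rw [hL]
        refine Real.log_le_log (by positivity) ?_
        rw [mul_comm 2]
        exact mul_le_mul_of_nonneg_left (by linarith) hk0.le
      have h2 : v ≤ 9 / 100 / √(k : ℝ) := by
        rw [le_div_iff₀ hsk0]
        have h3 : v * √(k : ℝ) * √(k : ℝ) ≤ 9 / 100 * √(k : ℝ) := by
          rw [mul_assoc, hskk, hvL]
          exact h1
        exact le_of_mul_le_mul_right h3 hsk0
      have hsk1 : 1 ≤ √(k : ℝ) := Real.one_le_sqrt.2 (by linarith)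
      refine ⟨?_, h2.trans (div_le_self (by norm_num) hsk1)⟩
      have h4 : √v ≤ 3 / 10 * (k : ℝ) ^ (-(1 / 4) : ℝ) := by
        rw [Real.sqrt_le_iff]
        refine ⟨by positivity, h2.trans (le_of_eq ?_)⟩
        rw [mul_pow, ← Real.rpow_natCast ((k : ℝ) ^ (-(1 / 4) : ℝ)), ← Real.rpow_mul hk0.le,
          Real.sqrt_eq_rpow, div_eq_mul_inv (9 / 100 : ℝ), ← Real.rpow_neg hk0.le]
        norm_num
      have h5 : (k : ℝ) ^ (-(1 / 4) : ℝ) ≤ (k : ℝ) ^ (-(1 / 16) : ℝ) :=
        Real.rpow_le_rpow_of_exponent_le (by linarith) (by norm_num)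
      linarith
    · have h1 : L ≤ 9 / 100 * √(k : ℝ) + 1 / 16 * k * Real.log 2 := by
        have h2 : L ≤ Real.log (2 * k) + Real.log Δ := by
          rw [hL, ← Real.log_mul (by positivity) (by positivity)]
          refine Real.log_le_log (by positivity) ?_
          rw [mul_comm 2, mul_assoc]
          exact mul_le_mul_of_nonneg_left (by linarith) hk0.le
        have h3 : Real.log Δ ≤ 1 / 16 * k * Real.log 2 := by
          have h4 := Real.log_le_log (by linarith) hΔhi
          rwa [Real.log_rpow (by norm_num)] at h4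
        linarith
      have hsk2 : 9 / 100 * √(k : ℝ) ≤ 4 / 100 * k := by
        have h3 : 9 / 4 ≤ √(k : ℝ) := by
          apply Real.le_sqrt_of_sq_le
          norm_num
          linarith
        have h4 := mul_le_mul_of_nonneg_right h3 hsk0.le
        linarith
      have hl2 := Real.log_two_lt_d9
      have h2 : v ≤ 9 / 100 := by
        have h3 : v * k ≤ 9 / 100 * k := by
          rw [hvL]
          have h4 := mul_le_mul_of_nonneg_left hl2.le hk0.le
          linarith
        exact le_of_mul_le_mul_right h3 hk0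
      refine ⟨?_, h2⟩
      have h4 : √v ≤ 3 / 10 := by
        rw [Real.sqrt_le_iff]
        exact ⟨by norm_num, by linarith⟩
      linarith
  obtain ⟨hsv1, hsv2⟩ := hsv
  rw [← hv]
  obtain ⟨g, hg⟩ : ∃ g : ℝ, g = (1 - (1 / 2 : ℝ) ^ k) ^ m := ⟨_, rfl⟩
  have hx2 : (1 / 2 : ℝ) ^ k ≤ 1 := pow_le_one₀ (by norm_num) (by norm_num)
  have hg0 : 0 ≤ g := by
    rw [hg]
    exact pow_nonneg (by linarith) _
  have hgu : (2 : ℝ) ^ n * guess n k m = 1 + 2 ^ n * g := by
    unfold guess
    rw [mul_add, ← mul_pow, hg]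
    norm_num
  rw [hgu]
  obtain ⟨P, hP⟩ : ∃ P : ℝ, P = (((2 : ℝ) ^ k - 1) * (n.descFactorial k : ℝ)) ^ m := ⟨_, rfl⟩
  have hP0 : 0 ≤ P := by
    rw [hP]
    have h1 : (1 : ℝ) ≤ 2 ^ k := one_le_pow₀ (by norm_num)
    have h2 : (0 : ℝ) ≤ 2 ^ k - 1 := by linarith
    positivity
  rw [← hP]
  have hsum : (∑ w ∈ range (n + 1), (n.choose w : ℝ)) = 2 ^ n := by
    have := Nat.sum_range_choose n
    exact_mod_cast this
  obtain ⟨T, hT⟩ : ∃ T : ℕ → ℝ, T = fun w =>
      (((2 : ℝ) ^ k - 2) * (n.descFactorial k : ℝ) + ((n - w).descFactorial k : ℝ)) ^ m := ⟨_, rfl⟩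
  have hT1 : ∀ w ∈ range (n + 1),
      T w ≤ P * Real.exp (-((1 - Real.exp (-(k * w / n))) * (Δ * n))) := by
    intro w hw
    rw [Finset.mem_range] at hw
    have := term_le (n := n) (k := k) (m := m) (w := w) (by omega) hkn' (by omega)
    rw [hΔn] at this
    rw [hT, hP]
    exact this
  have hT2 : ∀ w ∈ range (n + 1), ∀ ξ : ℝ, 0 < ξ → ξ ≤ 1 → ξ * n ≤ w →
      T w ≤ P * g * Real.exp (4 * (1 - ξ) ^ k * m / 2 ^ k) := by
    intro w hw ξ h0 h1 h2
    rw [Finset.mem_range] at hw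
    have := (hNS1 n k m w ξ (by omega) hkn' (by omega) h0 h1).2 h2
    rw [hT, hP, hg]
    exact this
  have hgoal : ∑ w ∈ range (n + 1), (n.choose w : ℝ) *
      (((2 : ℝ) ^ k - 2) * (n.descFactorial k : ℝ) + ((n - w).descFactorial k : ℝ)) ^ m =
      ∑ w ∈ range (n + 1), (n.choose w : ℝ) * T w := by
    rw [hT]
  rw [hgoal]
  have hG : 1 ≤ 1 + 2 ^ n * g := by
    have : 0 ≤ (2 : ℝ) ^ n * g := by positivity
    linarith
  have hvn0 : 0 ≤ v * n := by positivity
  have hvx : v * n = x * L := by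
    rw [← hvL, ← hxk]
    ring
  obtain ⟨E, hE⟩ : ∃ E : ℝ, E = Real.exp (ε / 8 * (v * n)) := ⟨_, rfl⟩
  have hE1 : 1 ≤ E := by
    rw [hE]
    exact Real.one_le_exp (by positivity)
  -- the terms
  have hterm : ∀ w ∈ range (n + 1), (n.choose w : ℝ) * T w ≤
      2 * E * P + (n.choose w : ℝ) * (P * g * E) := by
    intro w hw
    have hwn : w ≤ n := by
      rw [Finset.mem_range] at hw
      omega
    have hw0 : (0 : ℝ) ≤ w := Nat.cast_nonneg _
    have hc0 : (0 : ℝ) ≤ (n.choose w : ℝ) := Nat.cast_nonneg _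
    have a1 : 0 ≤ E * P := by positivity
    have a3 : 0 ≤ (n.choose w : ℝ) * (P * g * E) := by positivity
    have a4 : P ≤ E * P := le_mul_of_one_le_left hP0 hE1
    by_cases hw1 : v * n ≤ w
    · -- many variables
      have h1 := hT2 w hw v hv0 (by linarith) hw1
      have h2 : (1 - v) ^ k ≤ (k * (1 + Δ))⁻¹ := by
        have e1 : (k * (1 + Δ))⁻¹ = Real.exp (-v) ^ k := by
          rw [← Real.exp_nat_mul]
          have e2 : (k : ℝ) * -v = -L := by
            rw [← hvL]
            ring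
          rw [e2, Real.exp_neg, hL, Real.exp_log (by positivity)]
        rw [e1]
        exact pow_le_pow_left₀ (by linarith) (Real.one_sub_le_exp_neg _) k
      have h3 : 4 * (1 - v) ^ k * m / 2 ^ k ≤ ε / 8 * (v * n) := by
        have e1 : 4 * (1 - v) ^ k * m / 2 ^ k = 4 * (1 - v) ^ k * (Δ * n) := by
          rw [← hΔn]
          ring
        rw [e1]
        have h4 : 4 * (1 - v) ^ k * (Δ * n) ≤ 4 * (k * (1 + Δ))⁻¹ * (Δ * n) := by gcongr
        refine h4.trans ?_
        have h5 : 4 * (k * (1 + Δ))⁻¹ * (Δ * n) ≤ 4 * x := by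
          rw [mul_inv, hx]
          have h6 : (1 + Δ)⁻¹ * Δ ≤ 1 := by
            rw [inv_mul_le_iff₀ (by linarith)]
            linarith
          have h7 : 0 ≤ 4 * (k : ℝ)⁻¹ * n := by positivity
          calc 4 * ((k : ℝ)⁻¹ * (1 + Δ)⁻¹) * (Δ * n) = 4 * (k : ℝ)⁻¹ * n * ((1 + Δ)⁻¹ * Δ) := by
                ring
            _ ≤ 4 * (k : ℝ)⁻¹ * n * 1 := mul_le_mul_of_nonneg_left h6 h7
            _ = 4 * (n / k) := by
                rw [div_eq_mul_inv]
                ring
        refine h5.trans ?_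
        rw [hvx]
        have h8 : 32 ≤ ε * L := c3.trans (mul_le_mul_of_nonneg_left hlogk hε.le)
        have h9 : x * 32 ≤ x * (ε * L) := mul_le_mul_of_nonneg_left h8 (by linarith)
        have h10 : ε / 8 * (x * L) = x * (ε * L) / 8 := by ring
        linarith
      have h5 : T w ≤ P * g * E := by
        rw [hE]
        exact h1.trans (mul_le_mul_of_nonneg_left (Real.exp_le_exp.2 h3) (by positivity))
      have h6 := mul_le_mul_of_nonneg_left h5 hc0
      linarith
    · push Not at hw1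
      have hT' := hT1 w hw
      by_cases hw2 : (k : ℝ) * w / n ≤ 1
      · -- few
        have h1 : (k : ℝ) * w / n / 2 ≤ 1 - Real.exp (-(k * w / n)) := by
          have h2 := exp_le_one_sub (x := (k : ℝ) * w / n / 2) (by positivity) (by linarith)
          have h3 : 2 * ((k : ℝ) * w / n / 2) = k * w / n := by ring
          rw [h3] at h2
          linarith
        have h2 : (k : ℝ) * w / n / 2 * (Δ * n) ≤
            (1 - Real.exp (-(k * w / n))) * (Δ * n) :=
          mul_le_mul_of_nonneg_right h1 (by positivity)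
        have h3 : (k : ℝ) * w / n / 2 * (Δ * n) = w * (Δ * k / 2) := by
          field_simp
        have h4 : T w ≤ P * Real.exp (-(w * (Δ * k / 2))) := by
          refine hT'.trans (mul_le_mul_of_nonneg_left (Real.exp_le_exp.2 ?_) hP0)
          linarith
        have h5 := choose_le_exp hwn (Real.exp_pos (-(Δ * k / 2)))
        rw [Real.log_exp] at h5
        have h6 : (n.choose w : ℝ) * T w ≤
            Real.exp (n * Real.exp (-(Δ * k / 2)) - w * -(Δ * k / 2)) *
              (P * Real.exp (-(w * (Δ * k / 2)))) :=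
          mul_le_mul h5 h4 (by
            rw [hT]
            have : (0 : ℝ) ≤ 2 ^ k - 2 := by
              have : (2 : ℝ) ^ 1 ≤ 2 ^ k := pow_le_pow_right₀ (by norm_num) (by omega)
              linarith
            positivity) (Real.exp_pos _).le
        have h7 : Real.exp (n * Real.exp (-(Δ * k / 2)) - w * -(Δ * k / 2)) *
            (P * Real.exp (-(w * (Δ * k / 2)))) = Real.exp (n * Real.exp (-(Δ * k / 2))) * P := by
          rw [mul_left_comm, ← Real.exp_add, mul_comm]
          congr 2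
          ring
        have h8 : (n : ℝ) * Real.exp (-(Δ * k / 2)) ≤ ε / 8 * (v * n) := by
          have h9 : √(k : ℝ) ≤ Δ * k := by
            have h10 : √(k : ℝ) ≤ (k : ℝ) ^ (-(1 / 16) : ℝ) * k := by
              rw [Real.sqrt_eq_rpow]
              nth_rewrite 3 [← Real.rpow_one (k : ℝ)]
              rw [← Real.rpow_add hk0]
              exact Real.rpow_le_rpow_of_exponent_le (by linarith) (by norm_num)
            exact h10.trans (mul_le_mul_of_nonneg_right hΔlo hk0.le)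
          have h11 : Real.exp (-(Δ * k / 2)) ≤ Real.exp (-(√(k : ℝ) / 2)) := by
            rw [Real.exp_le_exp]
            linarith
          have h12 : (n : ℝ) * Real.exp (-(Δ * k / 2)) ≤ x * (k * Real.exp (-(√(k : ℝ) / 2))) := by
            rw [← mul_assoc, hxk]
            exact mul_le_mul_of_nonneg_left h11 hn0.le
          refine h12.trans ?_
          rw [hvx]
          have h13 : x * (k * Real.exp (-(√(k : ℝ) / 2))) ≤ x * (ε / 8) :=
            mul_le_mul_of_nonneg_left c1 (by linarith)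
          have h14 : 1 ≤ L := c4.trans hlogk
          refine h13.trans ?_
          have h15 : 0 ≤ x * (ε / 8) := by positivity
          have h16 := mul_le_mul_of_nonneg_left h14 h15
          have h17 : ε / 8 * (x * L) = x * (ε / 8) * L := by ring
          linarith
        rw [h7] at h6
        have h9 : Real.exp (n * Real.exp (-(Δ * k / 2))) * P ≤ E * P := by
          rw [hE]
          exact mul_le_mul_of_nonneg_right (Real.exp_le_exp.2 h8) hP0
        linarith
      · -- medium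
        push Not at hw2
        have h1 : 6 / 10 ≤ 1 - Real.exp (-(k * w / n)) := by
          have h2 : Real.exp (-((k : ℝ) * w / n)) ≤ Real.exp (-1) := by
            rw [Real.exp_le_exp]
            linarith
          have h3 : Real.exp (-1) ≤ 4 / 10 := by
            rw [Real.exp_neg]
            have h4 := Real.exp_one_gt_d9
            rw [inv_le_comm₀ (Real.exp_pos _) (by norm_num)]
            norm_num
            linarith
          linarith
        have h2 : T w ≤ P * Real.exp (-(6 / 10 * (Δ * n))) := by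
          refine hT'.trans (mul_le_mul_of_nonneg_left (Real.exp_le_exp.2 ?_) hP0)
          have h3 : 6 / 10 * (Δ * n) ≤ (1 - Real.exp (-(k * w / n))) * (Δ * n) :=
            mul_le_mul_of_nonneg_right h1 (by positivity)
          linarith
        have h3 : (n.choose w : ℝ) ≤ Real.exp (6 / 10 * (Δ * n)) := by
          refine (choose_le_exp hwn hv0).trans ?_
          rw [Real.exp_le_exp]
          have h4 : -Real.log v ≥ 0 := by
            have := Real.log_nonpos hv0.le (by linarith : v ≤ 1)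
            linarith
          have h5 : (w : ℝ) * (-Real.log v) ≤ v * n * (-Real.log v) :=
            mul_le_mul_of_nonneg_right hw1.le h4
          have h6 := sub_mul_log_le hv0
          have h7 : n * (v - v * Real.log v) ≤ n * (6 / 10 * Δ) :=
            mul_le_mul_of_nonneg_left (h6.trans hsv1) hn0.le
          have e1 : (n : ℝ) * v - w * Real.log v = n * v + w * (-Real.log v) := by ring
          have e2 : (n : ℝ) * v + v * n * (-Real.log v) = n * (v - v * Real.log v) := by ring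
          have e3 : (n : ℝ) * (6 / 10 * Δ) = 6 / 10 * (Δ * n) := by ring
          rw [e1]
          linarith
        have h4 : (n.choose w : ℝ) * T w ≤ P := by
          have h5 : (n.choose w : ℝ) * T w ≤
              Real.exp (6 / 10 * (Δ * n)) * (P * Real.exp (-(6 / 10 * (Δ * n)))) :=
            (mul_le_mul_of_nonneg_left h2 hc0).trans
              (mul_le_mul_of_nonneg_right h3 (by positivity))
          refine h5.trans (le_of_eq ?_)
          rw [mul_left_comm, ← Real.exp_add, add_neg_cancel, Real.exp_zero, mul_one]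
        linarith
  have hS := Finset.sum_le_sum hterm
  rw [Finset.sum_add_distrib, Finset.sum_const, ← Finset.sum_mul, hsum, Finset.card_range,
    nsmul_eq_mul] at hS
  refine hS.trans ?_
  push_cast
  -- numbers
  obtain ⟨G, hGd⟩ : ∃ G : ℝ, G = 1 + 2 ^ n * g := ⟨_, rfl⟩
  rw [← hGd] at hG
  rw [← hGd]
  have h1 : ((n : ℝ) + 1) * (2 * E * P) + 2 ^ n * (P * g * E) ≤ 2 * (n + 1) * E * G * P := by
    have b1 : (2 : ℝ) ^ n * g = G - 1 := by linarith
    have b2 : (2 : ℝ) ^ n * (P * g * E) = (G - 1) * (P * E) := by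
      rw [← b1]
      ring
    rw [b2]
    have b3 : 0 ≤ P * E := by positivity
    have b4 : (G - 1) * (P * E) ≤ 2 * (n + 1) * (G - 1) * (P * E) := by
      apply mul_le_mul_of_nonneg_right _ b3
      exact le_mul_of_one_le_left (by linarith) (by linarith)
    calc ((n : ℝ) + 1) * (2 * E * P) + (G - 1) * (P * E)
        ≤ (n + 1) * (2 * E * P) + 2 * (n + 1) * (G - 1) * (P * E) := by linarith
      _ = 2 * (n + 1) * E * G * P := by ring
  refine h1.trans (mul_le_mul_of_nonneg_right ?_ hP0)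
  refine mul_le_mul_of_nonneg_right ?_ (by linarith)
  have h2 : 2 * ((n : ℝ) + 1) ≤ Real.exp (ε / 2 * (v * n)) := by
    have h3 : 2 * ((n : ℝ) + 1) ≤ 3 * n := by linarith
    refine h3.trans ?_
    rw [← Real.log_le_iff_le_exp (by positivity), Real.log_mul (by norm_num) hn0.ne', ← hxk,
      Real.log_mul (by linarith) hk0.ne', hxk, hvx]
    have h5 : 0 ≤ Real.log x := Real.log_nonneg hx1
    have h6 : (3 + Real.log x) * L ≤ ε / 2 * x * L :=
      mul_le_mul_of_nonneg_right c5 (by linarith)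
    have h7 : 1 ≤ L := c4.trans hlogk
    have h8 : Real.log 3 ≤ 2 := by
      have := Real.log_le_sub_one_of_pos (by norm_num : (0 : ℝ) < 3)
      linarith
    have h9 : (2 + Real.log x) * 1 ≤ (2 + Real.log x) * L :=
      mul_le_mul_of_nonneg_left h7 (by linarith)
    have h10 : (3 + Real.log x) * L = (2 + Real.log x) * L + L := by ring
    have h11 : ε / 2 * (x * L) = ε / 2 * x * L := by ring
    linarith
  calc 2 * ((n : ℝ) + 1) * E ≤ Real.exp (ε / 2 * (v * n)) * E :=
        mul_le_mul_of_nonneg_right h2 (by linarith)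
    _ = Real.exp (5 / 8 * (ε * v * n)) := by
        rw [hE, ← Real.exp_add]
        congr 1
        ring
    _ ≤ (2 : ℝ) ^ (ε * v * n) := by
        rw [Real.rpow_def_of_pos (by norm_num), Real.exp_le_exp]
        have h5 := Real.log_two_gt_d9
        have h6 : 0 ≤ ε * v * n := by positivity
        exact mul_le_mul_of_nonneg_right (by linarith) h6

end Pool.Agent.H13.SR
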